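import Pool.Agent.helper95.PY2.Spec

/-! Row FIN of helper95's plan PY2 (MP_f6e9a2_nt): from intervals of length at most the square
root of `p` to all arithmetic progressions. -/

set_option autoImplicit false

open Finset

namespace Pool.Agent.PY2

/-- cutting into blocks -/
theorem FIN_blocks (g : ℕ → ℝ) (N₀ : ℕ) (bd : ℝ) (h : ∀ s, ∑ i ∈ range N₀, g (s + i) ≤ bd) :
    ∀ K : ℕ, ∑ n ∈ range (K * N₀), g n ≤ K * bd := by
  intro K
  induction K with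
  | zero => simp
  | succ K ih =>
    rw [Nat.succ_mul, Finset.sum_range_add]
    push_cast
    have := h (K * N₀)
    linarith

/-- dilating and translating `B` -/
theorem FIN_block (ε δ : ℝ) (p₀ : ℕ)
    (hI : ∀ (p : ℕ) [Fact p.Prime], p₀ < p →
      ∀ (N : ℕ) (B : Finset (ZMod p)), (p : ℝ) ^ ε ≤ N → N ^ 2 ≤ p →
      (p : ℝ) ^ (1 / 2 + ε) ≤ N * B.card →
      ∀ χ : MulChar (ZMod p) ℂ, χ ≠ 1 → ∀ β : ZMod p → ℂ, (∀ b, ‖β b‖ ≤ 1) →
        ∑ n ∈ range N, ‖∑ b ∈ B, β b * χ ((n : ZMod p) + b)‖ ≤ (p : ℝ) ^ (-δ) * N * B.card)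
    (p : ℕ) [Fact p.Prime] (hp : p₀ < p) (N : ℕ) (B : Finset (ZMod p))
    (h1 : (p : ℝ) ^ ε ≤ N) (h2 : N ^ 2 ≤ p) (h3 : (p : ℝ) ^ (1 / 2 + ε) ≤ N * B.card)
    (χ : MulChar (ZMod p) ℂ) (hχ : χ ≠ 1) (β : ZMod p → ℂ) (hβ : ∀ b, ‖β b‖ ≤ 1)
    (c v : ZMod p) (hv : v ≠ 0) :
    ∑ n ∈ range N, ‖∑ b ∈ B, β b * χ (c + (n : ZMod p) * v + b)‖ ≤
      (p : ℝ) ^ (-δ) * N * B.card := by
  classical
  have hinj : Function.Injective (fun b : ZMod p => (b + c) / v) := by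
    intro x y hxy
    have h := (div_left_inj' hv).1 hxy
    exact add_right_cancel h
  have hcard : (B.image (fun b : ZMod p => (b + c) / v)).card = B.card :=
    Finset.card_image_of_injective _ hinj
  have h := hI p hp N (B.image (fun b : ZMod p => (b + c) / v)) h1 h2 (by rw [hcard]; exact h3)
    χ hχ (fun x => β (x * v - c)) (fun x => hβ _)
  rw [hcard] at h
  refine le_trans (Finset.sum_le_sum fun n _ => ?_) h
  have he : ∑ b ∈ B, β b * χ (c + (n : ZMod p) * v + b) =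
      χ v * ∑ b ∈ B.image (fun b : ZMod p => (b + c) / v), β (b * v - c) * χ ((n : ZMod p) + b) := by
    rw [Finset.sum_image (fun x _ y _ hxy => hinj hxy), Finset.mul_sum]
    refine Finset.sum_congr rfl fun b _ => ?_
    have e1 : (b + c) / v * v - c = b := by rw [div_mul_cancel₀ _ hv]; ring
    have e2 : c + (n : ZMod p) * v + b = v * ((n : ZMod p) + (b + c) / v) := by
      rw [mul_add, mul_div_cancel₀ _ hv]; ring
    rw [e1, e2, map_mul]
    ring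
  rw [he, norm_mul]
  have hχv : ‖χ v‖ ≤ 1 := DirichletCharacter.norm_le_one (n := p) χ v
  calc ‖χ v‖ * _ ≤ 1 * _ := mul_le_mul_of_nonneg_right hχv (norm_nonneg _)
    _ = _ := one_mul _

/-- dropping terms -/
theorem FIN_drop {p : ℕ} [Fact p.Prime] (A : Finset (ZMod p)) (c v : ZMod p) (N : ℕ) (hv : v ≠ 0)
    (hN : N < p) (hA : ∀ a ∈ A, ∃ n : ℕ, n < N ∧ a = c + (n : ZMod p) * v) (g : ZMod p → ℝ)
    (hg : ∀ x, 0 ≤ g x) : ∑ a ∈ A, g a ≤ ∑ n ∈ range N, g (c + (n : ZMod p) * v) := by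
  classical
  have hinj : Set.InjOn (fun n : ℕ => c + (n : ZMod p) * v) (range N : Finset ℕ) := by
    intro x hx y hy hxy
    have hx' : x < N := by simpa using hx
    have hy' : y < N := by simpa using hy
    have h1 : (x : ZMod p) = (y : ZMod p) := mul_right_cancel₀ hv (add_left_cancel hxy)
    have h2 := (ZMod.natCast_eq_natCast_iff x y p).1 h1
    exact Nat.ModEq.eq_of_lt_of_lt h2 (by omega) (by omega)
  rw [← Finset.sum_image (f := g) hinj]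
  refine Finset.sum_le_sum_of_subset_of_nonneg ?_ (fun x _ _ => hg x)
  intro a ha
  obtain ⟨n, hn, rfl⟩ := hA a ha
  exact Finset.mem_image.2 ⟨n, Finset.mem_range.2 hn, rfl⟩

/-- numbers -/
theorem FIN_num (ε δ : ℝ) (hε : 0 < ε) (hδ : 0 < δ) : ∃ p₁ : ℕ, ∀ p : ℕ, p₁ < p →
    2 ≤ (p : ℝ) ^ (3 * ε / 4) ∧ 2 ≤ (p : ℝ) ^ (δ / 2) ∧ 16 ≤ (p : ℝ) := by
  have hA : Filter.Tendsto (fun p : ℕ => (p : ℝ) ^ (3 * ε / 4)) Filter.atTop Filter.atTop :=
    (tendsto_rpow_atTop (by positivity)).comp tendsto_natCast_atTop_atTop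
  have hB : Filter.Tendsto (fun p : ℕ => (p : ℝ) ^ (δ / 2)) Filter.atTop Filter.atTop :=
    (tendsto_rpow_atTop (by positivity)).comp tendsto_natCast_atTop_atTop
  have hC : Filter.Tendsto (fun p : ℕ => (p : ℝ)) Filter.atTop Filter.atTop :=
    tendsto_natCast_atTop_atTop
  have h := (hA.eventually_ge_atTop 2).and ((hB.eventually_ge_atTop 2).and
    (hC.eventually_ge_atTop 16))
  obtain ⟨p₁, hp₁⟩ := Filter.eventually_atTop.1 h
  exact ⟨p₁, fun p hp => hp₁ p hp.le⟩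

theorem FIN (h1 : INT_stmt) : FIN_stmt := by
  intro ε hε
  by_cases hε1 : 1 < ε
  · refine ⟨1, one_pos, 1, ?_⟩
    intro p _ hp A B c v N _ hN _ hpN _ _ _ _ _ _
    exfalso
    have hp1 : (1 : ℝ) < p := by exact_mod_cast hp
    have h2 : (p : ℝ) ^ (1 : ℝ) < (p : ℝ) ^ ε := Real.rpow_lt_rpow_of_exponent_lt hp1 hε1
    rw [Real.rpow_one] at h2
    have h3 : (N : ℝ) < p := by exact_mod_cast hN
    linarith
  rw [not_lt] at hε1
  obtain ⟨δ, hδ, p₀, hI⟩ := h1 (ε / 4) (by positivity) (by linarith)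
  obtain ⟨p₁, hnum⟩ := FIN_num ε δ hε hδ
  refine ⟨δ / 2, by positivity, max p₀ p₁, ?_⟩
  intro p _ hp A B c v N hv hN hA hpN hpB hNB χ hχ β hβ
  have hp0 : p₀ < p := lt_of_le_of_lt (le_max_left _ _) hp
  obtain ⟨hn1, hn2, hn3⟩ := hnum p (lt_of_le_of_lt (le_max_right _ _) hp)
  have hpp : (0 : ℝ) < p := by linarith
  have hp1 : (1 : ℝ) ≤ p := by linarith
  refine le_trans (FIN_drop A c v N hv hN hA
    (fun a => ‖∑ b ∈ B, β b * χ (a + b)‖) (fun x => norm_nonneg _)) ?_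
  have hδδ : (p : ℝ) ^ (-δ) ≤ (p : ℝ) ^ (-(δ / 2)) :=
    Real.rpow_le_rpow_of_exponent_le hp1 (by linarith)
  have he4 : (p : ℝ) ^ (ε / 4) ≤ (p : ℝ) ^ ε := Real.rpow_le_rpow_of_exponent_le hp1 (by linarith)
  by_cases hNp : N ^ 2 ≤ p
  · have h := FIN_block (ε / 4) δ p₀ hI p hp0 N B (he4.trans hpN) hNp
      (le_trans (Real.rpow_le_rpow_of_exponent_le hp1 (by linarith)) hNB) χ hχ β hβ c v hv
    refine h.trans ?_
    gcongr
  · rw [not_le] at hNp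
    -- blocks of length N₀
    set N₀ := Nat.sqrt p with hN₀
    have hs1 : N₀ ^ 2 ≤ p := Nat.sqrt_le' p
    have hs2 : p < (N₀ + 1) ^ 2 := Nat.lt_succ_sqrt' p
    have hN₀N : N₀ ≤ N := by
      by_contra hcon
      rw [not_le] at hcon
      have : N ^ 2 ≤ N₀ ^ 2 := Nat.pow_le_pow_left hcon.le 2
      omega
    have hsq : Real.sqrt p < N₀ + 1 := by
      rw [Real.sqrt_lt' (by positivity)]
      exact_mod_cast hs2
    have hsq4 : (4 : ℝ) ≤ Real.sqrt p := by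
      rw [show (4 : ℝ) = Real.sqrt 16 by
        rw [show (16 : ℝ) = 4 ^ 2 by norm_num, Real.sqrt_sq (by norm_num)]]
      exact Real.sqrt_le_sqrt hn3
    have hN₀half : Real.sqrt p / 2 ≤ N₀ := by linarith
    have hN₀pos : 0 < N₀ := by
      have : (0 : ℝ) < N₀ := by linarith
      exact_mod_cast this
    have hsqrt : Real.sqrt p = (p : ℝ) ^ ((1 : ℝ) / 2) := Real.sqrt_eq_rpow _
    -- p^(ε/4) ≤ N₀
    have hc1 : (p : ℝ) ^ (ε / 4) ≤ N₀ := by
      have h4 : (p : ℝ) ^ (ε / 4) ≤ (p : ℝ) ^ ((1 : ℝ) / 4) :=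
        Real.rpow_le_rpow_of_exponent_le hp1 (by linarith)
      have h5 : (p : ℝ) ^ ((1 : ℝ) / 4) * (p : ℝ) ^ ((1 : ℝ) / 4) = Real.sqrt p := by
        rw [← Real.rpow_add hpp, hsqrt]; norm_num
      have h6 : (0 : ℝ) < (p : ℝ) ^ ((1 : ℝ) / 4) := Real.rpow_pos_of_pos hpp _
      have h7 : 2 ≤ (p : ℝ) ^ ((1 : ℝ) / 4) := by nlinarith
      nlinarith
    have hc3 : (p : ℝ) ^ (1 / 2 + ε / 4) ≤ N₀ * B.card := by
      have h8 : (p : ℝ) ^ ε = (p : ℝ) ^ (3 * ε / 4) * (p : ℝ) ^ (ε / 4) := by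
        rw [← Real.rpow_add hpp]; ring_nf
      have h9 : (0 : ℝ) < (p : ℝ) ^ (ε / 4) := Real.rpow_pos_of_pos hpp _
      have h10 : 2 * (p : ℝ) ^ (ε / 4) ≤ B.card := by
        refine le_trans ?_ hpB
        rw [h8]
        exact mul_le_mul_of_nonneg_right hn1 h9.le
      rw [Real.rpow_add hpp, ← hsqrt]
      have h11 : (0 : ℝ) ≤ Real.sqrt p := Real.sqrt_nonneg _
      calc Real.sqrt p * (p : ℝ) ^ (ε / 4) = (Real.sqrt p / 2) * (2 * (p : ℝ) ^ (ε / 4)) := by ring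
        _ ≤ N₀ * B.card := mul_le_mul hN₀half h10 (by positivity) (by positivity)
    have hbl : ∀ s : ℕ, ∑ i ∈ range N₀,
        ‖∑ b ∈ B, β b * χ (c + ((s + i : ℕ) : ZMod p) * v + b)‖ ≤
          (p : ℝ) ^ (-δ) * N₀ * B.card := by
      intro s
      have h := FIN_block (ε / 4) δ p₀ hI p hp0 N₀ B hc1 hs1 hc3 χ hχ β hβ
        (c + (s : ZMod p) * v) v hv
      refine le_trans (le_of_eq ?_) h
      refine Finset.sum_congr rfl fun i _ => ?_
      have e : c + ((s + i : ℕ) : ZMod p) * v = c + (s : ZMod p) * v + (i : ZMod p) * v := by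
        push_cast; ring
      rw [e]
    have hall := FIN_blocks (fun n : ℕ => ‖∑ b ∈ B, β b * χ (c + (n : ZMod p) * v + b)‖) N₀
      ((p : ℝ) ^ (-δ) * N₀ * B.card) hbl (N / N₀ + 1)
    have hsub : range N ⊆ range ((N / N₀ + 1) * N₀) := by
      refine Finset.range_subset_range.2 ?_
      have := Nat.lt_div_mul_add (a := N) hN₀pos
      rw [Nat.add_mul, one_mul]
      omega
    refine le_trans (Finset.sum_le_sum_of_subset_of_nonneg hsub (fun x _ _ => norm_nonneg _)) ?_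
    refine hall.trans ?_
    have hK : ((N / N₀ + 1 : ℕ) : ℝ) * N₀ ≤ 2 * N := by
      have h12 : (N / N₀ + 1) * N₀ ≤ 2 * N := by
        rw [Nat.add_mul, one_mul]
        have := Nat.div_mul_le_self N N₀
        omega
      exact_mod_cast h12
    have hd : (p : ℝ) ^ (-δ) * 2 ≤ (p : ℝ) ^ (-(δ / 2)) := by
      have h13 : (p : ℝ) ^ (-(δ / 2)) = (p : ℝ) ^ (-δ) * (p : ℝ) ^ (δ / 2) := by
        rw [← Real.rpow_add hpp]; ring_nf
      rw [h13]
      exact mul_le_mul_of_nonneg_left hn2 (Real.rpow_nonneg hpp.le _)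
    have hP : (0 : ℝ) ≤ (p : ℝ) ^ (-δ) := Real.rpow_nonneg hpp.le _
    calc ((N / N₀ + 1 : ℕ) : ℝ) * ((p : ℝ) ^ (-δ) * N₀ * B.card)
        = (p : ℝ) ^ (-δ) * (((N / N₀ + 1 : ℕ) : ℝ) * N₀) * B.card := by ring
      _ ≤ (p : ℝ) ^ (-δ) * (2 * N) * B.card := by gcongr
      _ = ((p : ℝ) ^ (-δ) * 2) * N * B.card := by ring
      _ ≤ (p : ℝ) ^ (-(δ / 2)) * N * B.card := by gcongr

end Pool.Agent.PY2
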